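import Pool.Agent.GLE.StmtsA

/-!
# GLE, row MON: the polynomials `P_k` are monic of degree `k`
-/

open scoped BigOperators

namespace Pool.Agent.GLE.H31

open Polynomial Pool.Agent.GLE

/-- expansion in base `B` -/
theorem digit_sum (B k : ℕ) : ∀ n : ℕ,
    ∑ j ∈ Finset.range n, ((k / B ^ j) % B) * B ^ j + (k / B ^ n) * B ^ n = k := by
  intro n
  induction n with
  | zero => simp
  | succ n ih =>
    rw [Finset.sum_range_succ]
    have h1 : k / B ^ (n + 1) = (k / B ^ n) / B := by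
      rw [pow_succ, Nat.div_div_eq_div_mul]
    have h2 := Nat.mod_add_div (k / B ^ n) B
    have h3 : (k / B ^ n) % B * B ^ n + (k / B ^ (n + 1)) * B ^ (n + 1) = (k / B ^ n) * B ^ n := by
      rw [h1, pow_succ]
      calc (k / B ^ n) % B * B ^ n + (k / B ^ n) / B * (B ^ n * B)
          = ((k / B ^ n) % B + B * ((k / B ^ n) / B)) * B ^ n := by ring
        _ = (k / B ^ n) * B ^ n := by rw [h2]
    rw [add_assoc, h3, ih]

/-- row MON -/
theorem mon (coe : CoeStmt) (sep : SepStmt) : MonStmt := by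
  intro b k hb
  obtain ⟨-, hc2, hc3⟩ := coe
  have hB : 1 < 2 ^ b := Nat.one_lt_two_pow (by omega)
  have hfac : ∀ j : ℕ, (Fb (X : ℝ[X]) (av (1 + b * j) (X : ℝ[X])) b
      ((k / (2 ^ b) ^ j) % 2 ^ b)).Monic ∧ (Fb (X : ℝ[X]) (av (1 + b * j) (X : ℝ[X])) b
      ((k / (2 ^ b) ^ j) % 2 ^ b)).natDegree = ((k / (2 ^ b) ^ j) % 2 ^ b) * (2 ^ b) ^ j := by
    intro j
    obtain ⟨-, -, -, -, h1, h2, -⟩ := sep (1 + b * j) (by omega)
    have h3 : (av (1 + b * j) (X : ℝ[X])).natDegree = (2 ^ b) ^ j := by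
      rw [h2, Nat.add_sub_cancel_left, pow_mul]
    exact hc3 _ _ b _ h1 h3 (Nat.one_le_pow _ _ (by omega))
  refine ⟨?_, ?_, ?_⟩
  · unfold Pk
    exact monic_prod_of_monic _ _ fun j _ => (hfac j).1
  · unfold Pk
    rw [natDegree_prod_of_monic _ _ fun j _ => (hfac j).1,
      Finset.sum_congr rfl fun j _ => (hfac j).2]
    have h1 := digit_sum (2 ^ b) k (k + 1)
    have h2 : k / (2 ^ b) ^ (k + 1) = 0 := by
      apply Nat.div_eq_of_lt
      calc k < (2 ^ b) ^ k := Nat.lt_pow_self hB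
        _ ≤ (2 ^ b) ^ (k + 1) := Nat.pow_le_pow_right (by omega) (Nat.le_succ k)
    rw [h2, zero_mul, add_zero] at h1
    exact h1
  · intro z
    unfold Pk
    rw [map_prod]
    refine Finset.prod_congr rfl fun j _ => ?_
    obtain ⟨-, -, -, -, -, -, h3, -⟩ := sep (1 + b * j) (by omega)
    rw [hc2, h3]

end Pool.Agent.GLE.H31
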