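import Pool.Agent.GLE.StmtsA

/-!
# GLE, row ROO: roots of irreducible monic integer polynomials
-/

open scoped BigOperators

namespace Pool.Agent.GLE.H31

open Polynomial Pool.Agent.GLE

/-- the factorisation through the rational numbers -/
theorem map_rat (g : ℤ[X]) :
    g.map (Int.castRingHom ℂ) = (g.map (algebraMap ℤ ℚ)).map (algebraMap ℚ ℂ) := by
  rw [Polynomial.map_map]
  congr 1

theorem aeval_eq (g : ℤ[X]) (z : ℂ) : aeval z g = eval z (g.map (Int.castRingHom ℂ)) := by
  rw [eval_map, aeval_def]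
  rfl

theorem aeval_rat (g : ℤ[X]) (z : ℂ) : aeval z (g.map (algebraMap ℤ ℚ)) = aeval z g := by
  rw [aeval_eq, map_rat, eval_map, aeval_def]

theorem irr_rat {g : ℤ[X]} (hg : g.Monic) (hi : Irreducible g) :
    Irreducible (g.map (algebraMap ℤ ℚ)) :=
  (hg.irreducible_iff_irreducible_map_fraction_map (K := ℚ)).1 hi

theorem roo1 (g : ℤ[X]) (hg : g.Monic) (hi : Irreducible g) :
    (g.map (Int.castRingHom ℂ)).Separable ∧ 1 ≤ g.natDegree := by
  constructor
  · rw [map_rat]
    exact (irr_rat hg hi).separable.map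
  · by_contra h
    have h0 : g.natDegree = 0 := by omega
    have h1 : g = 1 := hg.natDegree_eq_zero.1 h0
    apply hi.not_isUnit
    rw [h1]
    exact isUnit_one

theorem roo2 (g : ℤ[X]) (hg : g.Monic) (hs : (g.map (Int.castRingHom ℂ)).Separable) :
    (rt g).card = g.natDegree ∧ (g.map (Int.castRingHom ℂ)).roots = (rt g).val ∧
    (∀ z : ℂ, z ∈ rt g ↔ aeval z g = 0) ∧
    (∀ z : ℂ, aeval z g = ∏ a ∈ rt g, (z - a)) ∧
    0 ≤ ∑ a ∈ rt g, ∑ b ∈ (rt g).erase a, Real.log ‖a - b‖ := by
  classical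
  obtain ⟨G, hG⟩ : ∃ G : ℂ[X], G = g.map (Int.castRingHom ℂ) := ⟨_, rfl⟩
  have hrt : rt g = G.roots.toFinset := by
    rw [hG]
    rfl
  rw [← hG] at hs ⊢
  have hGm : G.Monic := by
    rw [hG]
    exact hg.map _
  have hdeg : G.natDegree = g.natDegree := by
    rw [hG]
    exact hg.natDegree_map _
  have hsp : G.Splits := IsAlgClosed.splits G
  have hnd : G.roots.Nodup := nodup_roots hs
  have hval : G.roots = (rt g).val := by
    rw [hrt, Multiset.toFinset_val, Multiset.dedup_eq_self.2 hnd]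
  have hprod : G = ((rt g).val.map (fun a => X - C a)).prod := by
    rw [← hval]
    exact hsp.eq_prod_roots_of_monic hGm
  have hcard : (rt g).card = g.natDegree := by
    rw [Finset.card_def, ← hval, ← hdeg]
    exact (splits_iff_card_roots.1 hsp)
  have hev : ∀ z : ℂ, aeval z g = ∏ a ∈ rt g, (z - a) := by
    intro z
    rw [aeval_eq, ← hG, hprod]
    have h1 : ((rt g).val.map (fun a => X - C a)).prod = ∏ a ∈ rt g, (X - C a) := rfl
    rw [h1, eval_prod]
    refine Finset.prod_congr rfl fun a _ => ?_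
    rw [eval_sub, eval_X, eval_C]
  refine ⟨hcard, hval, ?_, hev, ?_⟩
  · intro z
    rw [hrt, Multiset.mem_toFinset, mem_roots hGm.ne_zero, IsRoot.def, aeval_eq, ← hG]
  -- the derivative at the roots
  have hder : ∀ a ∈ rt g, eval a (derivative G) = ∏ b ∈ (rt g).erase a, (a - b) := by
    intro a ha
    have h1 := eval_multiset_prod_X_sub_C_derivative (S := (rt g).val) (r := a) ha
    rw [← hprod] at h1
    rw [h1, ← Finset.erase_val]
    rfl
  -- the resultant
  obtain ⟨D, hD⟩ : ∃ D : ℤ, D = resultant g (derivative g) g.natDegree (g.natDegree - 1) :=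
    ⟨_, rfl⟩
  have hDC : (D : ℂ) = ∏ a ∈ rt g, eval a (derivative G) := by
    have h1 := resultant_map_map g (derivative g) g.natDegree (g.natDegree - 1)
      (Int.castRingHom ℂ)
    rw [← derivative_map, ← hG, ← hD] at h1
    have h2 := resultant_eq_prod_eval G (derivative G) (G.natDegree - 1)
      (natDegree_derivative_le G) hsp
    rw [hdeg] at h2
    rw [h2, hGm.leadingCoeff, one_pow, one_mul, hval] at h1
    exact h1.symm
  have hne : ∀ a ∈ rt g, eval a (derivative G) ≠ 0 := by
    intro a ha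
    have h1 : eval a G = 0 := by
      have h2 : a ∈ G.roots := by
        rw [hval]
        exact ha
      exact (mem_roots hGm.ne_zero).1 h2
    obtain ⟨u, v, huv⟩ := hs
    intro h3
    have h4 := congrArg (eval a) huv
    rw [eval_add, eval_mul, eval_mul, h1, h3, mul_zero, mul_zero, add_zero, eval_one] at h4
    exact zero_ne_one h4
  have hD0 : D ≠ 0 := by
    intro h
    rw [h, Int.cast_zero] at hDC
    exact (Finset.prod_ne_zero_iff.2 hne) hDC.symm
  have hD1 : (1 : ℝ) ≤ ∏ a ∈ rt g, ‖eval a (derivative G)‖ := by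
    rw [← norm_prod, ← hDC, Complex.norm_intCast]
    exact_mod_cast Int.one_le_abs hD0
  have hlog : ∑ a ∈ rt g, ∑ b ∈ (rt g).erase a, Real.log ‖a - b‖ =
      Real.log (∏ a ∈ rt g, ‖eval a (derivative G)‖) := by
    rw [Real.log_prod (fun a ha => norm_ne_zero_iff.2 (hne a ha))]
    refine Finset.sum_congr rfl fun a ha => ?_
    rw [hder a ha, norm_prod, Real.log_prod]
    intro b hb
    exact norm_ne_zero_iff.2 (sub_ne_zero.2 (Finset.ne_of_mem_erase hb).symm)
  rw [hlog]
  exact Real.log_nonneg hD1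

theorem roo3 (g h : ℤ[X]) (hg : g.Monic) (hh : h.Monic) (hgi : Irreducible g)
    (hhi : Irreducible h) (hne : g ≠ h) : Disjoint (rt g) (rt h) := by
  rw [Finset.disjoint_left]
  intro z hz hz'
  apply hne
  have h1 : aeval z g = 0 := ((roo2 g hg (roo1 g hg hgi).1).2.2.1 z).1 hz
  have h2 : aeval z h = 0 := ((roo2 h hh (roo1 h hh hhi).1).2.2.1 z).1 hz'
  have h3 := minpoly.eq_of_irreducible_of_monic (irr_rat hg hgi) (x := z)
    (by rw [aeval_rat, h1]) (hg.map _)
  have h4 := minpoly.eq_of_irreducible_of_monic (irr_rat hh hhi) (x := z)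
    (by rw [aeval_rat, h2]) (hh.map _)
  exact map_injective (algebraMap ℤ ℚ) (RingHom.injective_int _) (h3.trans h4.symm)

/-- row ROO -/
theorem roo : RooStmt := ⟨roo1, roo2, roo3⟩

end Pool.Agent.GLE.H31
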